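import Pool.Agent.Work.MP_180c68_gt.Main

/-!
There are two compact arithmetic hyperbolic 2-orbifolds of area `π` which are isospectral and not
isometric. They are quotients by two subgroups of index eight of the reflection group of the
hyperbolic triangle with angles `π/2, π/4, π/8`.
-/

open UpperHalfPlane

namespace Pool.Agent.Results.MP_180c68_gt.PairOfAreaPi

theorem result : ∃ Γ₁ Γ₂ : Subgroup (ℍ ≃ᵢ ℍ),
    (Iso180.Discrete Γ₁ ∧ Iso180.Cocompact Γ₁ ∧ Iso180.Arithmetic Γ₁ ∧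
      Iso180.HasArea Γ₁ Real.pi ∧ ∀ A : ℝ, 0 ≤ A → Iso180.HasArea Γ₁ A → A = Real.pi) ∧
    (Iso180.Discrete Γ₂ ∧ Iso180.Cocompact Γ₂ ∧ Iso180.Arithmetic Γ₂ ∧
      Iso180.HasArea Γ₂ Real.pi ∧ ∀ A : ℝ, 0 ≤ A → Iso180.HasArea Γ₂ A → A = Real.pi) ∧
    Iso180.Isospectral Γ₁ Γ₂ ∧ ¬ Iso180.Isometric Γ₁ Γ₂ :=
  Iso180.main'

end Pool.Agent.Results.MP_180c68_gt.PairOfAreaPi
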